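import Pool.Agent.Helper94.YF.St

/-! # Project YF (MP_2b6189_al): module YVE -/

set_option autoImplicit false

namespace Pool.Agent.Helper24.YF

open Pool.Agent.Helper94.YF
open Matrix ComplexConjugate

private lemma s2_00 {L : ℕ} (b : ZMod L) (hb : b * b = b) : (s2 b : SL L) 0 0 = 1 - b := by
  simp only [s2, U, Lo, Matrix.SpecialLinearGroup.coe_mul]
  simp [Matrix.mul_apply, Fin.sum_univ_two]
  linear_combination -hb

private lemma s2_01 {L : ℕ} (b : ZMod L) (hb : b * b = b) : (s2 b : SL L) 0 1 = -b := by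
  simp only [s2, U, Lo, Matrix.SpecialLinearGroup.coe_mul]
  simp [Matrix.mul_apply, Fin.sum_univ_two]
  linear_combination -b * hb - hb

private lemma s2_10 {L : ℕ} (b : ZMod L) : (s2 b : SL L) 1 0 = b := by
  simp only [s2, U, Lo, Matrix.SpecialLinearGroup.coe_mul]
  simp [Matrix.mul_apply, Fin.sum_univ_two]

private lemma s2_11 {L : ℕ} (b : ZMod L) (hb : b * b = b) : (s2 b : SL L) 1 1 = 1 - b := by
  simp only [s2, U, Lo, Matrix.SpecialLinearGroup.coe_mul]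
  simp [Matrix.mul_apply, Fin.sum_univ_two]
  linear_combination -hb

private lemma sum_pow_prime {A : Type} [CommRing A] (p : ℕ) (hp : p.Prime) {K : Type}
    (s : Finset K) (f : K → A) : ∃ r : A, (∑ i ∈ s, f i) ^ p = ∑ i ∈ s, f i ^ p + p * r := by
  classical
  induction s using Finset.induction_on with
  | empty => exact ⟨0, by simp [hp.ne_zero]⟩
  | insert a s ha ih =>
    obtain ⟨r, hr⟩ := ih
    obtain ⟨r', hr'⟩ := exists_add_pow_prime_eq hp (f a) (∑ i ∈ s, f i)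
    refine ⟨r + f a * (∑ i ∈ s, f i) * r', ?_⟩
    rw [Finset.sum_insert ha, Finset.sum_insert ha, hr', hr]
    ring

private lemma frob (p : ℕ) (hp : p.Prime) {M : ℕ} (lam : Fin M → ℂ)
    (h : ∀ r, IsIntegral ℤ (lam r)) :
    ∃ γ : ℂ, IsIntegral ℤ γ ∧ (∑ r, lam r) ^ p = ∑ r, lam r ^ p + p * γ := by
  obtain ⟨r, hr⟩ := sum_pow_prime (A := integralClosure ℤ ℂ) p hp Finset.univ
    (fun r => (⟨lam r, h r⟩ : integralClosure ℤ ℂ))
  refine ⟨(r : ℂ), r.2, ?_⟩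
  have := congrArg (fun x : integralClosure ℤ ℂ => (x : ℂ)) hr
  simpa using this

private lemma fixed {I : Type} [Fintype I] [DecidableEq I] (Z : CentreRep I) (b : ZMod Z.L)
    (hb : b * b = b) (σ : ℂ ≃+* ℂ) (i : I) : σ (Z.rho (s2 b) i Z.o) = Z.rho (s2 b) i Z.o := by
  obtain ⟨c, hc⟩ := Z.galois σ
  have hcc : ((c⁻¹ : (ZMod Z.L)ˣ) : ZMod Z.L) * (c : ZMod Z.L) = 1 := by
    rw [← Units.val_mul]; simp
  set ci : ZMod Z.L := ((c⁻¹ : (ZMod Z.L)ˣ) : ZMod Z.L) with hci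
  have h1 : ((1 - b) + ci * b) * ((1 - b) + (c : ZMod Z.L) * b) = 1 := by
    linear_combination (1 - ci - (c : ZMod Z.L) + ci * (c : ZMod Z.L)) * hb + b * hcc
  let y : (ZMod Z.L)ˣ := ⟨(1 - b) + ci * b, (1 - b) + (c : ZMod Z.L) * b, h1, by
    rw [mul_comm]; exact h1⟩
  have hy : (y : ZMod Z.L) = (1 - b) + ci * b := rfl
  have hyi : ((y⁻¹ : (ZMod Z.L)ˣ) : ZMod Z.L) = (1 - b) + (c : ZMod Z.L) * b := rfl
  have key := hc (s2 b) (s2 b * Dg y) ?_ ?_ ?_ ?_ i Z.o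
  · rw [← key, map_mul, Matrix.mul_apply]
    simp only [Z.borel]
    simp
  · rw [Matrix.SpecialLinearGroup.coe_mul, Matrix.mul_apply, Fin.sum_univ_two, s2_00 b hb, s2_01 b hb]
    simp only [Dg]
    simp
    rw [hy]
    linear_combination (1 - ci) * hb
  · rw [Matrix.SpecialLinearGroup.coe_mul, Matrix.mul_apply, Fin.sum_univ_two, s2_00 b hb, s2_01 b hb]
    simp only [Dg]
    simp
    rw [hyi]
    linear_combination ((c : ZMod Z.L) - 1) * hb
  · rw [Matrix.SpecialLinearGroup.coe_mul, Matrix.mul_apply, Fin.sum_univ_two, s2_10 b, s2_11 b hb]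
    simp only [Dg]
    simp
    rw [hy]
    linear_combination (ci * (c : ZMod Z.L) - (c : ZMod Z.L)) * hb + b * hcc
  · rw [Matrix.SpecialLinearGroup.coe_mul, Matrix.mul_apply, Fin.sum_univ_two, s2_10 b, s2_11 b hb]
    simp only [Dg]
    simp
    rw [hyi]
    linear_combination (1 - (c : ZMod Z.L)) * hb


private lemma primeDvd {I : Type} [Fintype I] [DecidableEq I] (Z : CentreRep I) (P : ℕ)
    (b : ZMod Z.L) (hI : Idem Z.L P b) (hF : StFUS) (hD : StDUA) (hInt : StINT) (hR : StRAT)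
    (i : I) (M : ℤ) (hM : (M : ℂ) = Z.n * Z.rho (s2 b) i Z.o) (p : ℕ) (hp : p.Prime)
    (hodd : Odd p) (hpn : p ∣ Z.n) : (p : ℤ) ∣ M := by
  obtain ⟨hb, hPb, ⟨a, hPa⟩, L', hL', hoL, -⟩ := hI
  obtain ⟨f1, f2, f3, f4, f5, f6, f7, -, -, -, f11⟩ := hF hD I Z
  have hLpos := Z.L_pos
  have : NeZero Z.L := ⟨hLpos.ne'⟩
  have hp2 : 3 ≤ p := by
    rcases hodd with ⟨t, ht⟩
    have := hp.two_le
    omega
  -- the prime divides L'
  have hpL' : p ∣ L' := by
    have h1 : p ∣ P * L' := hL' ▸ Z.cauchy p hp hpn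
    rcases hp.dvd_mul.1 h1 with h | h
    · rw [hPa] at h
      have := (Nat.prime_dvd_prime_iff_eq hp Nat.prime_two).1 (hp.dvd_of_dvd_pow h)
      omega
    · exact h
  have hPpos : 0 < P := by rw [hPa]; positivity
  set k : ℕ := b.val + Z.L with hk
  have hkpos : 0 < k := by omega
  have hkb : (k : ZMod Z.L) = b := by rw [hk]; simp
  have hpk : p ∣ k := by
    refine hpL'.trans ?_
    have h1 : ((P * k : ℕ) : ZMod Z.L) = 0 := by push_cast; rw [hkb]; exact hPb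
    rw [ZMod.natCast_eq_zero_iff] at h1
    have h2 : P * L' ∣ P * k := hL' ▸ h1
    exact Nat.dvd_of_mul_dvd_mul_left hPpos h2
  obtain ⟨K, lam, hlam, hind⟩ := Z.indicator i k hkpos
  have hlamint : ∀ r, IsIntegral ℤ (lam r) := by
    intro r
    have h1 : lam r ^ (k * Z.L) = 1 := by rw [pow_mul, hlam, f2]
    refine IsIntegral.of_pow (n := k * Z.L) (Nat.mul_pos hkpos hLpos) ?_
    rw [h1]; exact isIntegral_one
  -- l = 1
  have hz1 : ∑ r, lam r = Z.n * Z.rho (Lo b) i Z.o := by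
    have := hind 1 (Lo b) (by simp [Lo]) (by simp [Lo, hkb])
    simpa using this
  -- l = p
  obtain ⟨kp, hkp⟩ := hpk
  have hgcd : p.gcd k = p := Nat.gcd_eq_left ⟨kp, hkp⟩
  have hkdiv : k / p = kp := by rw [hkp]; exact Nat.mul_div_cancel_left _ hp.pos
  have hzp : ∑ r, lam r ^ p = (Z.n : ℂ) ^ p * Z.rho (Lo (kp : ZMod Z.L)) i Z.o := by
    have := hind p (Lo (kp : ZMod Z.L)) (by
      rw [hgcd, Nat.div_self hp.pos]; simp [Lo]) (by
      rw [hgcd, hkdiv]; simp [Lo])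
    rw [hgcd] at this
    exact this
  have hint2 : IsIntegral ℤ ((Z.n : ℂ) * Z.rho (Lo (kp : ZMod Z.L)) i Z.o) :=
    hInt I Z (Lo (kp : ZMod Z.L)) i 0 (by simp [Lo])
  obtain ⟨γ, hγ, hfrob⟩ := frob p hp lam hlamint
  obtain ⟨n', hn'⟩ := hpn
  -- u i
  have hu : Z.rho (s2 b) i Z.o = Z.tw (-b) i * Z.rho (Lo b) i Z.o := by
    have e1 : Z.rho (s2 b) = Matrix.diagonal (Z.tw (-b)) * Z.rho (Lo b) *
        Matrix.diagonal (Z.tw (-b)) := by
      rw [s2, map_mul, map_mul, f1]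
    rw [e1, Matrix.mul_diagonal, Matrix.diagonal_mul, f6]
    ring
  have htwint : IsIntegral ℤ (Z.tw (-b) i) := by
    have h1 : Z.tw (-b) i ^ Z.L = 1 := by
      rw [CentreRep.tw, ← pow_mul, mul_comm, pow_mul, f2, one_pow]
    refine IsIntegral.of_pow (n := Z.L) hLpos ?_
    rw [h1]; exact isIntegral_one
  have hMz : (M : ℂ) = Z.tw (-b) i * ∑ r, lam r := by
    rw [hM, hu, hz1]; ring
  have hpow : (M : ℂ) ^ p = p * (Z.tw (-b) i ^ p *
      (n' * (Z.n : ℂ) ^ (p - 2) * ((Z.n : ℂ) * Z.rho (Lo (kp : ZMod Z.L)) i Z.o) + γ)) := by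
    rw [hMz, mul_pow, hfrob, hzp]
    have h3 : (Z.n : ℂ) ^ p = (Z.n : ℂ) * (Z.n : ℂ) ^ (p - 2) * (Z.n : ℂ) := by
      have : p = 1 + (p - 2) + 1 := by omega
      conv_lhs => rw [this]
      rw [pow_add, pow_add]; ring
    have h4 : (Z.n : ℂ) = p * n' := by
      have := congrArg (fun x : ℕ => (x : ℂ)) hn'
      simpa using this
    rw [h3]
    generalize (Z.n : ℂ) ^ (p - 2) = w
    generalize Z.rho (Lo (kp : ZMod Z.L)) i Z.o = w'
    rw [h4]
    ring
  set β : ℂ := Z.tw (-b) i ^ p *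
      (n' * (Z.n : ℂ) ^ (p - 2) * ((Z.n : ℂ) * Z.rho (Lo (kp : ZMod Z.L)) i Z.o) + γ) with hβ
  have hnat : ∀ t : ℕ, IsIntegral ℤ (t : ℂ) := fun t => by
    have : IsIntegral ℤ ((algebraMap ℤ ℂ) (t : ℤ)) := isIntegral_algebraMap
    simpa using this
  have hβint : IsIntegral ℤ β :=
    (htwint.pow p).mul ((((hnat n').mul ((hnat Z.n).pow _)).mul hint2).add hγ)
  have hp0 : (p : ℂ) ≠ 0 := by exact_mod_cast hp.ne_zero
  have hβq : β = (((M : ℚ) ^ p / p : ℚ) : ℂ) := by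
    push_cast
    rw [hpow]
    field_simp
  obtain ⟨m, hm⟩ := hR.2 _ (hβq ▸ hβint)
  have hm2 : M ^ p = p * m := by
    have hp0' : (p : ℚ) ≠ 0 := by exact_mod_cast hp.ne_zero
    have : ((M ^ p : ℤ) : ℚ) = ((p * m : ℤ) : ℚ) := by
      push_cast
      rw [hm]; field_simp
    exact_mod_cast this
  exact (Nat.prime_iff_prime_int.1 hp).dvd_of_dvd_pow ⟨m, hm2⟩

theorem hYVE : StYVE := by
  intro hF hD hInt hR I _ _ Z P m b hI hn hodd hsq
  have hb : b * b = b := hI.1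
  have key : ∀ i, ∃ y : ℤ, (y : ℂ) = 2 * Z.rho (s2 b) i Z.o := by
    intro i
    have h1 : IsIntegral ℤ ((Z.n : ℂ) * Z.rho (s2 b) i Z.o) :=
      hInt I Z (s2 b) i (-1) (by rw [s2_00 b hb, s2_10 b]; ring)
    have h2 : ∀ σ : ℂ ≃+* ℂ, σ ((Z.n : ℂ) * Z.rho (s2 b) i Z.o) =
        (Z.n : ℂ) * Z.rho (s2 b) i Z.o := by
      intro σ
      rw [map_mul, fixed Z b hb σ i, map_natCast]
    obtain ⟨M, hM⟩ := hR.1 _ h1 h2
    have hdvd : (m : ℤ) ∣ M := by
      rw [Int.natCast_dvd]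
      have h3 : (∏ p ∈ m.primeFactors, p) ∣ M.natAbs := by
        refine Finset.prod_primes_dvd _ (fun p hp => (Nat.prime_of_mem_primeFactors hp).prime) ?_
        intro p hp
        have hpp := Nat.prime_of_mem_primeFactors hp
        have hpm := Nat.dvd_of_mem_primeFactors hp
        rw [← Int.natCast_dvd]
        exact primeDvd Z P b hI hF hD hInt hR i M hM p hpp (hodd.of_dvd_nat hpm)
          (hn ▸ (hpm.mul_left 2))
      rwa [Nat.prod_primeFactors_of_squarefree hsq] at h3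
    obtain ⟨y, hy⟩ := hdvd
    refine ⟨y, ?_⟩
    have hm0 : (m : ℂ) ≠ 0 := by
      have : m ≠ 0 := hsq.ne_zero
      exact_mod_cast this
    have h5 : (M : ℂ) = m * y := by rw [hy]; push_cast; ring
    have h6 : (Z.n : ℂ) = 2 * m := by
      have := congrArg (fun x : ℕ => (x : ℂ)) hn
      simpa using this
    apply mul_left_cancel₀ hm0
    rw [← h5, hM, h6]; ring
  choose y hy using key
  exact ⟨y, hy⟩

end Pool.Agent.Helper24.YF
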